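import Pool.Agent.TH867.BK.Val

/-! The height of coprime solutions of `a + b = c` in terms of the radical of `a b c`, an explicit
unconditional bound (helper867). -/

set_option autoImplicit false

namespace Pool.Agent.TH867.BK

open Finset
open Pool.Agent.TH867.SR (eq_prod log_eq_sum' Tr N3 rr rr_sum log_prime_nonneg)

/-- bootstrapping -/
theorem boot {L τ : ℝ} (hL : 1 ≤ L) (hτ : 1 ≤ τ)
    (h : τ ≤ 1278 * L ^ 6 + 81 * L ^ 4 * Real.log τ) : τ ≤ 3000 * L ^ 6 := by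
  have hτ0 : 0 < τ := by linarith
  have hL0 : 0 < L := by linarith
  have h4 : 1 ≤ L ^ 4 := one_le_pow₀ hL
  have h5 : 1 ≤ L ^ 5 := one_le_pow₀ hL
  have h6 : 1 ≤ L ^ 6 := one_le_pow₀ hL
  have s0 : 0 < Real.sqrt τ := Real.sqrt_pos.2 hτ0
  have s1 : Real.log τ ≤ 2 * Real.sqrt τ := by
    have e1 : Real.log τ = 2 * Real.log (Real.sqrt τ) := by
      rw [Real.log_sqrt hτ0.le]; ring
    have e2 := Real.log_le_sub_one_of_pos s0
    rw [e1]
    linarith
  have s2 : Real.sqrt τ ^ 2 = τ := Real.sq_sqrt hτ0.le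
  have s3 : 162 * L ^ 4 * Real.sqrt τ ≤ (τ + (162 * L ^ 4) ^ 2) / 2 := by
    have := sq_nonneg (162 * L ^ 4 - Real.sqrt τ)
    have e : (162 * L ^ 4 - Real.sqrt τ) ^ 2 =
      (162 * L ^ 4) ^ 2 - 2 * (162 * L ^ 4 * Real.sqrt τ) + Real.sqrt τ ^ 2 := by ring
    rw [e, s2] at this
    linarith
  have s4 : 81 * L ^ 4 * Real.log τ ≤ 162 * L ^ 4 * Real.sqrt τ := by
    have e := mul_le_mul_of_nonneg_left s1 (by positivity : (0 : ℝ) ≤ 81 * L ^ 4)
    linarith
  have s5 : (162 * L ^ 4) ^ 2 = 26244 * L ^ 8 := by ring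
  have s6 : L ^ 6 ≤ L ^ 8 := pow_le_pow_right₀ hL (by norm_num)
  have s7 : τ ≤ 28800 * L ^ 8 := by
    rw [s5] at s3
    linarith
  have s8 : Real.log τ ≤ 11 * L := by
    have e1 : Real.log τ ≤ Real.log (28800 * L ^ 8) := Real.log_le_log hτ0 s7
    rw [Real.log_mul (by norm_num) (by positivity), Real.log_pow] at e1
    have e2 : Real.log 28800 ≤ 11 := by
      rw [Real.log_le_iff_le_exp (by norm_num)]
      have e3 : (2.7 : ℝ) ^ 11 ≤ Real.exp 1 ^ 11 :=
        pow_le_pow_left₀ (by norm_num) (by linarith [Real.exp_one_gt_d9]) 11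
      have e4 : Real.exp 1 ^ 11 = Real.exp 11 := by
        rw [← Real.exp_nat_mul]; norm_num
      rw [e4] at e3
      refine le_trans ?_ e3
      norm_num
    have e3 := Real.log_le_sub_one_of_pos hL0
    push_cast at e1
    linarith
  have s9 : 81 * L ^ 4 * Real.log τ ≤ 891 * L ^ 5 := by
    have e := mul_le_mul_of_nonneg_left s8 (by positivity : (0 : ℝ) ≤ 81 * L ^ 4)
    have e2 : 81 * L ^ 4 * (11 * L) = 891 * L ^ 5 := by ring
    linarith
  have s10 : L ^ 5 ≤ L ^ 6 := pow_le_pow_right₀ hL (by norm_num)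
  linarith

/-- the numerical part -/
theorem numer {X L lc lz : ℝ} {w S R T V : ℕ} (hX : Real.log X = L) (hX0 : 0 < X) (hL : 1 ≤ L)
    (hτ : 1 ≤ Real.log lc) (hlc : 0 < lc)
    (hw : (w : ℝ) * Real.log 2 ≤ L) (hV : (V : ℝ) * Real.log 2 ≤ lc) (hR : (R : ℝ) ≤ X)
    (hT : T = Nat.log 2 V + 2) (hS : S = R + T)
    (hz : lz ≤ (2 : ℝ) ^ (140 * w ^ 6) * (S : ℝ) ^ (16 * w ^ 4) * L)
    (hc : lc ≤ Real.log 2 + lz) : Real.log lc ≤ 3000 * L ^ 6 := by
  have g1 : (0.6931 : ℝ) < Real.log 2 := by linarith [Real.log_two_gt_d9]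
  have g2 : Real.log 2 < 0.6932 := by linarith [Real.log_two_lt_d9]
  obtain ⟨τ, hτe⟩ : ∃ τ, τ = Real.log lc := ⟨_, rfl⟩
  rw [← hτe] at hτ ⊢
  have hτ0 : 0 < τ := by linarith
  have hL0 : 0 < L := by linarith
  refine boot hL hτ ?_
  have hw1 : (w : ℝ) ≤ 3 / 2 * L := by
    have hw0 : (0 : ℝ) ≤ w := Nat.cast_nonneg _
    have : (w : ℝ) * (2 / 3) ≤ w * Real.log 2 := mul_le_mul_of_nonneg_left (by linarith) hw0
    linarith
  -- the bound of `T`
  have hT1 : (T : ℝ) ≤ 3 + 3 / 2 * τ := by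
    rcases Nat.eq_zero_or_pos V with hV0 | hV0
    · rw [hT, hV0]
      simp only [Nat.log_zero_right]
      push_cast
      linarith
    · have e1 : 2 ^ Nat.log 2 V ≤ V := Nat.pow_log_le_self 2 hV0.ne'
      have e2 : ((2 : ℝ)) ^ Nat.log 2 V ≤ V := by exact_mod_cast e1
      have hV0' : (0 : ℝ) < V := by exact_mod_cast hV0
      have e3 : (V : ℝ) ≤ 2 * lc := by
        have : (V : ℝ) * (1 / 2) ≤ V * Real.log 2 := mul_le_mul_of_nonneg_left (by linarith) hV0'.le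
        linarith
      have e4 : (Nat.log 2 V : ℝ) * Real.log 2 ≤ Real.log 2 + τ := by
        have e5 := Real.log_le_log (by positivity) (e2.trans e3)
        rw [Real.log_pow, Real.log_mul (by norm_num) hlc.ne', ← hτe] at e5
        exact e5
      have e6 : (Nat.log 2 V : ℝ) ≤ 1 + 3 / 2 * τ := by
        by_contra hcon
        rw [not_le] at hcon
        have e7 : (1 + 3 / 2 * τ) * Real.log 2 < (Nat.log 2 V : ℝ) * Real.log 2 :=
          mul_lt_mul_of_pos_right hcon (by linarith)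
        have e8 : τ * (2 / 3) ≤ τ * Real.log 2 := mul_le_mul_of_nonneg_left (by linarith) hτ0.le
        linarith
      rw [hT]
      push_cast
      linarith
  have hXe : Real.exp L = X := by rw [← hX, Real.exp_log hX0]
  have hX2 : (2.7 : ℝ) ≤ X := by
    rw [← hXe]
    have : Real.exp 1 ≤ Real.exp L := Real.exp_le_exp.2 hL
    linarith [Real.exp_one_gt_d9]
  have hS1 : 1 ≤ S := by rw [hS, hT]; omega
  have hS0 : (0 : ℝ) < S := by exact_mod_cast hS1
  have hlS : Real.log S ≤ 2 * L + Real.log τ := by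
    have e1 : (S : ℝ) ≤ Real.exp 1 * X * τ := by
      rw [hS]
      push_cast
      have e2 : X * 1 ≤ X * τ := mul_le_mul_of_nonneg_left hτ hX0.le
      have e3 : 2.7 * τ ≤ X * τ := mul_le_mul_of_nonneg_right hX2 hτ0.le
      have e4 : 2.7 * (X * τ) ≤ Real.exp 1 * (X * τ) :=
        mul_le_mul_of_nonneg_right (by linarith [Real.exp_one_gt_d9]) (by positivity)
      rw [mul_assoc]
      linarith
    have e2 := Real.log_le_log hS0 e1
    rw [Real.log_mul (by positivity) hτ0.ne', Real.log_mul (by positivity) hX0.ne', Real.log_exp,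
      hX] at e2
    linarith
  -- the logarithm of the main inequality
  obtain ⟨Q, hQ⟩ : ∃ Q : ℝ, Q = (2 : ℝ) ^ (140 * w ^ 6) * (S : ℝ) ^ (16 * w ^ 4) * L := ⟨_, rfl⟩
  rw [← hQ] at hz
  have hQ1 : 1 ≤ Q := by
    rw [hQ]
    have e1 : (1 : ℝ) ≤ 2 ^ (140 * w ^ 6) := one_le_pow₀ (by norm_num)
    have e2 : (1 : ℝ) ≤ (S : ℝ) ^ (16 * w ^ 4) := one_le_pow₀ (by exact_mod_cast hS1)
    exact one_le_mul_of_one_le_of_one_le (one_le_mul_of_one_le_of_one_le e1 e2) hL
  have h1 : lc ≤ 2 * Q := by linarith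
  have h2 : τ ≤ Real.log (2 * Q) := by rw [hτe]; exact Real.log_le_log hlc h1
  rw [Real.log_mul (by norm_num) (by linarith), hQ, Real.log_mul (by positivity) hL0.ne',
    Real.log_mul (by positivity) (by positivity), Real.log_pow, Real.log_pow] at h2
  push_cast at h2
  have h3 := Real.log_le_sub_one_of_pos hL0
  have hw0 : (0 : ℝ) ≤ w := Nat.cast_nonneg _
  have h6 : (w : ℝ) ^ 6 ≤ (3 / 2 * L) ^ 6 := pow_le_pow_left₀ hw0 hw1 6
  have h4 : (w : ℝ) ^ 4 ≤ (3 / 2 * L) ^ 4 := pow_le_pow_left₀ hw0 hw1 4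
  have h6' : (3 / 2 * L) ^ 6 = 11.390625 * L ^ 6 := by ring
  have h4' : (3 / 2 * L) ^ 4 = 5.0625 * L ^ 4 := by ring
  rw [h6'] at h6
  rw [h4'] at h4
  have hL6 : 0 ≤ L ^ 6 := by positivity
  have hL4 : 0 ≤ L ^ 4 := by positivity
  have hlτ : 0 ≤ Real.log τ := Real.log_nonneg hτ
  have k1 : 140 * (w : ℝ) ^ 6 * Real.log 2 ≤ 1106 * L ^ 6 := by
    have e1 : 140 * (w : ℝ) ^ 6 * Real.log 2 ≤ 140 * (w : ℝ) ^ 6 * 0.6932 :=
      mul_le_mul_of_nonneg_left g2.le (by positivity)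
    linarith
  have k2 : 16 * (w : ℝ) ^ 4 * Real.log S ≤ 81 * L ^ 4 * (2 * L + Real.log τ) :=
    mul_le_mul (by linarith) hlS (Real.log_nonneg (by exact_mod_cast hS1)) (by positivity)
  have k3 : 81 * L ^ 4 * (2 * L + Real.log τ) = 162 * L ^ 5 + 81 * L ^ 4 * Real.log τ := by ring
  have k4 : L ^ 5 ≤ L ^ 6 := pow_le_pow_right₀ hL (by norm_num)
  have k5 : L ≤ L ^ 6 := le_self_pow₀ hL (by norm_num)
  have k6 : 1 ≤ L ^ 6 := one_le_pow₀ hL
  linarith

/-- the odd one of the two largest members -/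
theorem odd_side {t : Fin 3 → ℕ} (h : Tr t) (h3 : 3 ≤ t 2) : ∃ i : Fin 3, ∃ j : Fin 3,
    ∃ k : Fin 3, ¬ 2 ∣ t i ∧ t 2 ≤ 2 * t i ∧ t j ≠ t k ∧ i ≠ j ∧ i ≠ k ∧
    ((t i : ℕ) : ℤ) ∣ (t j : ℤ) ^ 2 - (t k : ℤ) ^ 2 := by
  have h0 := h.pos
  have hle := h.le
  have hadd := h.add
  have haddz : (t 0 : ℤ) + t 1 = t 2 := by exact_mod_cast hadd
  by_cases h2 : 2 ∣ t 2
  · refine ⟨1, 0, 2, ?_, by omega, by omega, by decide, by decide, ?_⟩
    · intro h1
      exact Nat.not_coprime_of_dvd_of_dvd (by norm_num) h1 h2 (h.cop' (by decide))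
    · refine ⟨-((t 0 : ℤ) + t 2), ?_⟩
      rw [← haddz]
      ring
  · refine ⟨2, 0, 1, h2, by omega, ?_, by decide, by decide, ?_⟩
    · intro h1
      have hc := h.cop
      rw [← h1, Nat.coprime_self] at hc
      omega
    · refine ⟨(t 0 : ℤ) - t 1, ?_⟩
      rw [← haddz]
      ring

/-- exponents are at most the binary logarithm -/
theorem fact_le_log {x c q : ℕ} (hx : 0 < x) (hxc : x ≤ c) : x.factorization q ≤ Nat.log 2 c := by
  by_cases hq : q.Prime
  · have h1 : q ^ x.factorization q ≤ x := Nat.ordProj_le q hx.ne'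
    have h2 : 2 ^ x.factorization q ≤ q ^ x.factorization q := Nat.pow_le_pow_left hq.two_le _
    exact Nat.le_log_of_pow_le (by norm_num) ((h2.trans h1).trans hxc)
  · rw [Nat.factorization_eq_zero_of_not_prime x hq]
    exact Nat.zero_le _

/-- **the height bound** -/
theorem height {t : Fin 3 → ℕ} (h : Tr t) {X : ℝ} (hX0 : 0 < X) (hX : 1 ≤ Real.log X)
    (hr : rr t 0 + rr t 1 + rr t 2 ≤ Real.log X) :
    Real.log (Real.log (t 2)) ≤ 3000 * Real.log X ^ 6 := by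
  classical
  have hL6 : 1 ≤ Real.log X ^ 6 := one_le_pow₀ hX
  by_cases hτ : 1 ≤ Real.log (Real.log (t 2))
  swap
  · linarith
  have hlc0 : 0 < Real.log (t 2) := by
    by_contra hcon
    rw [not_lt] at hcon
    have e1 : 0 ≤ Real.log (t 2) := Real.log_natCast_nonneg _
    have e2 : Real.log (t 2) = 0 := le_antisymm hcon e1
    rw [e2, Real.log_zero] at hτ
    linarith
  have h3 : 3 ≤ t 2 := by
    by_contra hcon
    rw [not_le] at hcon
    have e1 : (t 2 : ℝ) ≤ 2 := by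
      have : t 2 ≤ 2 := by omega
      exact_mod_cast this
    have e2 : Real.log (t 2) ≤ Real.log 2 :=
      Real.log_le_log (by exact_mod_cast h.pos' 2) e1
    have e3 : Real.log (t 2) ≤ 1 := by linarith [Real.log_two_lt_d9]
    have e4 := Real.log_nonpos hlc0.le e3
    linarith
  obtain ⟨i, j, k, hodd, h2i, hne, hij, hik, hd⟩ := odd_side h h3
  obtain ⟨V, hV⟩ : ∃ V, V = Nat.log 2 (t 2) := ⟨_, rfl⟩
  obtain ⟨R, hR⟩ : ∃ R, R = ⌊X⌋₊ := ⟨_, rfl⟩
  obtain ⟨T, hT⟩ : ∃ T, T = Nat.log 2 V + 2 := ⟨_, rfl⟩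
  obtain ⟨S, hS⟩ : ∃ S, S = R + T := ⟨_, rfl⟩
  obtain ⟨w, hw⟩ : ∃ w, w = (N3 t).primeFactors.card := ⟨_, rfl⟩
  have hprime : ∀ q ∈ (N3 t).primeFactors, q ≤ R := by
    intro q hq
    have hqp := Nat.prime_of_mem_primeFactors hq
    have hq0 : (0 : ℝ) < q := by exact_mod_cast hqp.pos
    rw [hR]
    apply Nat.le_floor
    refine (Real.log_le_log_iff hq0 hX0).1 (le_trans ?_ hr)
    rw [← rr_sum h]
    exact Finset.single_le_sum (f := fun q : ℕ => Real.log (q : ℝ))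
      (fun q hq => log_prime_nonneg (Nat.prime_of_mem_primeFactors hq)) hq
  have hsub : ∀ m : Fin 3, (t m).primeFactors ⊆ (N3 t).primeFactors := by
    intro m
    refine Nat.primeFactors_mono ?_ h.N3_pos.ne'
    obtain ⟨y, hy, -⟩ := Pool.Agent.TH867.SR.N3_eq t m
    rw [hy]
    exact Dvd.intro _ rfl
  have hsub2 : (t j * t k).primeFactors ⊆ (N3 t).primeFactors := by
    rw [Nat.primeFactors_mul (h.pos' j).ne' (h.pos' k).ne']
    exact Finset.union_subset (hsub j) (hsub k)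
  have hRS : R ≤ S := by omega
  have hR2 : S ≤ 2 ^ S := Nat.lt_two_pow_self.le
  have hexp : ∀ m : Fin 3, ∀ q, 2 * (t m).factorization q ≤ 2 ^ S := by
    intro m q
    have e1 : (t m).factorization q ≤ V := by
      rw [hV]
      exact fact_le_log (h.pos' m) (h.le2 m)
    have e2 : V < 2 ^ (Nat.log 2 V + 1) := Nat.lt_pow_succ_log_self (by norm_num) V
    have e3 : 2 ^ T = 2 * 2 ^ (Nat.log 2 V + 1) := by rw [hT]; ring
    have e4 : 2 ^ T ≤ 2 ^ S := Nat.pow_le_pow_right (by norm_num) (by omega)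
    omega
  have hside := side_bound (x := t j) (y := t k) (z := t i) (w := w) (R := R) (S := S)
    (h.pos' j) (h.pos' k) hne (h.pos' i) hodd (h.cop' hij) (h.cop' hik) hd
    (by rw [hw]; exact Finset.card_le_card hsub2)
    (fun q hq => hprime q (hsub i hq)) hRS
    (fun q hq => (hprime q (hsub2 hq)).trans (hRS.trans hR2)) (hexp j) (hexp k) (by omega)
  have hsum : ∑ q ∈ (t i).primeFactors, Real.log q ≤ Real.log X := by
    refine le_trans ?_ hr
    rw [← rr_sum h]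
    exact Finset.sum_le_sum_of_subset_of_nonneg (hsub i) fun q hq _ =>
      log_prime_nonneg (Nat.prime_of_mem_primeFactors hq)
  refine numer (X := X) (lz := Real.log (t i)) (w := w) (S := S) (R := R) (T := T) (V := V) rfl hX0
    hX hτ hlc0 ?_ ?_ ?_ hT hS ?_ ?_
  · refine le_trans ?_ hr
    rw [← rr_sum h, hw, ← nsmul_eq_mul]
    refine Finset.card_nsmul_le_sum _ _ _ fun q hq => ?_
    exact Real.log_le_log (by norm_num) (by
      exact_mod_cast (Nat.prime_of_mem_primeFactors hq).two_le)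
  · have e1 : 2 ^ V ≤ t 2 := by rw [hV]; exact Nat.pow_log_le_self 2 (h.pos' 2).ne'
    have e2 : ((2 : ℝ)) ^ V ≤ t 2 := by exact_mod_cast e1
    have e3 := Real.log_le_log (by positivity) e2
    rwa [Real.log_pow] at e3
  · rw [hR]
    exact Nat.floor_le hX0.le
  · refine hside.trans ?_
    exact mul_le_mul_of_nonneg_left hsum (by positivity)
  · have e1 : (t 2 : ℝ) ≤ 2 * t i := by exact_mod_cast h2i
    have hi0 : (0 : ℝ) < t i := by exact_mod_cast h.pos' i
    have e2 := Real.log_le_log (by exact_mod_cast h.pos' 2) e1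
    rwa [Real.log_mul (by norm_num) hi0.ne'] at e2

end Pool.Agent.TH867.BK
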