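import Pool.Agent.TH867.BK.Wb
import Pool.Agent.TH867.SR.Main

/-! Bounds for the height of coprime solutions of `a + b = c` (helper867). -/

set_option autoImplicit false

namespace Pool.Agent.TH867.BK

open Finset
open Pool.Agent.TH867.SR (eq_prod log_eq_sum' Tr N3 rr log_prime_nonneg)

/-- products over the primes of a number -/
theorem prod_fin {G : Type*} [CommMonoid G] (P : Finset ℕ) (f : ℕ → G) :
    ∏ i : Fin P.card, f (P.equivFin.symm i : ℕ) = ∏ q ∈ P, f q := by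
  rw [← Finset.prod_coe_sort P f]
  exact Equiv.prod_comp P.equivFin.symm (fun q : P => f q)

/-- valuation of `x ^ 2 - y ^ 2` -/
theorem val_bound {x y p M S : ℕ} (hx : 0 < x) (hy : 0 < y) (hxy : x ≠ y) (hp : p.Prime)
    (hp2 : p ≠ 2) (hpx : ¬ p ∣ x) (hpy : ¬ p ∣ y) (hd : ((p ^ M : ℕ) : ℤ) ∣ (x : ℤ) ^ 2 - y ^ 2)
    (hpS : p ≤ S) (hq : ∀ q ∈ (x * y).primeFactors, q ≤ 2 ^ S)
    (hex : ∀ q, 2 * x.factorization q ≤ 2 ^ S) (hey : ∀ q, 2 * y.factorization q ≤ 2 ^ S) :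
    M ≤ 2 ^ (140 * (x * y).primeFactors.card ^ 6) * S ^ (16 * (x * y).primeFactors.card ^ 4) := by
  classical
  have : Fact p.Prime := ⟨hp⟩
  obtain ⟨P, hP⟩ : ∃ P, P = (x * y).primeFactors := ⟨_, rfl⟩
  rw [← hP] at hq ⊢
  have hPp : ∀ q ∈ P, q.Prime := fun q h => by rw [hP] at h; exact Nat.prime_of_mem_primeFactors h
  have hxP : x.primeFactors ⊆ P := by
    rw [hP]; exact Nat.primeFactors_mono (Dvd.intro _ rfl) (Nat.mul_pos hx hy).ne'
  have hyP : y.primeFactors ⊆ P := by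
    rw [hP]; exact Nat.primeFactors_mono (Dvd.intro_left _ rfl) (Nat.mul_pos hx hy).ne'
  have hxe := eq_prod hx.ne' hxP
  have hye := eq_prod hy.ne' hyP
  have hcop : ∀ q ∈ P, Nat.Coprime q (p ^ M) := by
    intro q h
    refine Nat.Coprime.pow_right _ ?_
    rw [Nat.coprime_primes (hPp q h) hp]
    rintro rfl
    rw [hP, Nat.mem_primeFactors] at h
    rcases (Nat.Prime.dvd_mul hp).1 h.2.1 with h1 | h1
    · exact hpx h1
    · exact hpy h1
  obtain ⟨e, he⟩ : ∃ e : Fin P.card → ℕ, e = fun i => (P.equivFin.symm i : ℕ) := ⟨_, rfl⟩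
  have heP : ∀ i, e i ∈ P := fun i => by rw [he]; exact (P.equivFin.symm i).2
  let v : ℕ → (ZMod (p ^ M))ˣ := fun q => if h : Nat.Coprime q (p ^ M) then ZMod.unitOfCoprime q h else 1
  have hv : ∀ q ∈ P, (v q : ZMod (p ^ M)) = q := by
    intro q h
    simp only [v, dif_pos (hcop q h)]
    exact ZMod.coe_unitOfCoprime _ _
  let bb : ℕ → ℤ := fun q => 2 * ((x.factorization q : ℤ) - y.factorization q)
  have h := baker P.card p hp2 S hpS e (fun i => bb (e i)) M (fun i => v (e i))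
    (fun i => hv _ (heP i)) (fun i => (hPp _ (heP i)).pos) (fun i => hq _ (heP i))
    (fun i => by
      have h1 := hex (e i)
      have h2 := hey (e i)
      simp only [bb]
      rw [abs_le]
      have h1' : 2 * ((x.factorization (e i) : ℕ) : ℤ) ≤ 2 ^ S := by exact_mod_cast h1
      have h2' : 2 * ((y.factorization (e i) : ℕ) : ℤ) ≤ 2 ^ S := by exact_mod_cast h2
      have h3 : (0 : ℤ) ≤ ((x.factorization (e i) : ℕ) : ℤ) := Int.natCast_nonneg _
      have h4 : (0 : ℤ) ≤ ((y.factorization (e i) : ℕ) : ℤ) := Int.natCast_nonneg _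
      constructor <;> linarith)
    ?_ ?_
  · exact h
  · -- the rational number
    have e1 : ∏ i, ((e i : ℕ) : ℚ) ^ (bb (e i)) = ∏ q ∈ P, (q : ℚ) ^ (bb q) := by
      rw [he]
      exact prod_fin P (fun q => (q : ℚ) ^ (bb q))
    rw [e1]
    have e2 : ∏ q ∈ P, (q : ℚ) ^ (bb q) = (x : ℚ) ^ 2 / (y : ℚ) ^ 2 := by
      have e3 : ∏ q ∈ P, (q : ℚ) ^ (bb q) =
          (∏ q ∈ P, (q : ℚ) ^ x.factorization q) ^ 2 / (∏ q ∈ P, (q : ℚ) ^ y.factorization q) ^ 2 := by
        rw [← Finset.prod_pow, ← Finset.prod_pow, ← Finset.prod_div_distrib]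
        refine Finset.prod_congr rfl fun q hqP => ?_
        have hq0 : (q : ℚ) ≠ 0 := by exact_mod_cast (hPp q hqP).ne_zero
        simp only [bb]
        rw [mul_sub, zpow_sub₀ hq0, ← pow_mul, ← pow_mul, mul_comm (x.factorization q) 2,
          mul_comm (y.factorization q) 2]
        norm_cast
      rw [e3]
      congr 2
      · conv_rhs => rw [hxe]
        push_cast
        rfl
      · conv_rhs => rw [hye]
        push_cast
        rfl
    rw [e2]
    intro h1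
    have hy0 : (y : ℚ) ≠ 0 := by exact_mod_cast hy.ne'
    rw [div_eq_one_iff_eq (pow_ne_zero 2 hy0)] at h1
    have h2 : x ^ 2 = y ^ 2 := by exact_mod_cast h1
    exact hxy (Nat.pow_left_injective (by norm_num : (2 : ℕ) ≠ 0) h2)
  · -- the unit
    have e1 : ∏ i, v (e i) ^ (bb (e i)) = ∏ q ∈ P, v q ^ (bb q) := by
      rw [he]
      exact prod_fin P (fun q => v q ^ (bb q))
    rw [e1]
    have e3 : ∏ q ∈ P, v q ^ (bb q) =
        (∏ q ∈ P, v q ^ x.factorization q) ^ 2 / (∏ q ∈ P, v q ^ y.factorization q) ^ 2 := by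
      rw [← Finset.prod_pow, ← Finset.prod_pow, ← Finset.prod_div_distrib]
      refine Finset.prod_congr rfl fun q _ => ?_
      simp only [bb]
      rw [mul_sub, zpow_sub, ← pow_mul, ← pow_mul, mul_comm (x.factorization q) 2,
        mul_comm (y.factorization q) 2, div_eq_mul_inv]
      norm_cast
    rw [e3, div_eq_one]
    have e4 : ∀ z : ℕ, z = ∏ q ∈ P, q ^ z.factorization q →
        ((∏ q ∈ P, v q ^ z.factorization q : (ZMod (p ^ M))ˣ) : ZMod (p ^ M)) = z := by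
      intro z hz
      rw [Units.coe_prod]
      conv_rhs => rw [hz]
      push_cast
      refine Finset.prod_congr rfl fun q hqP => ?_
      rw [hv q hqP]
    apply Units.ext
    rw [Units.val_pow_eq_pow_val, Units.val_pow_eq_pow_val, e4 x hxe, e4 y hye]
    have h1 : (((x : ℤ) ^ 2 - (y : ℤ) ^ 2 : ℤ) : ZMod (p ^ M)) = 0 :=
      (ZMod.intCast_zmod_eq_zero_iff_dvd _ _).2 hd
    push_cast at h1
    exact sub_eq_zero.1 h1

/-- the bound of one side -/
theorem side_bound {x y z w R S : ℕ} (hx : 0 < x) (hy : 0 < y) (hxy : x ≠ y) (hz : 0 < z)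
    (hzodd : ¬ 2 ∣ z) (hzx : Nat.Coprime z x) (hzy : Nat.Coprime z y)
    (hd : (z : ℤ) ∣ (x : ℤ) ^ 2 - y ^ 2) (hw : (x * y).primeFactors.card ≤ w)
    (hRz : ∀ q ∈ z.primeFactors, q ≤ R) (hRS : R ≤ S)
    (hq : ∀ q ∈ (x * y).primeFactors, q ≤ 2 ^ S)
    (hex : ∀ q, 2 * x.factorization q ≤ 2 ^ S) (hey : ∀ q, 2 * y.factorization q ≤ 2 ^ S)
    (hS1 : 1 ≤ S) :
    Real.log z ≤ (2 : ℝ) ^ (140 * w ^ 6) * (S : ℝ) ^ (16 * w ^ 4) *
      ∑ q ∈ z.primeFactors, Real.log q := by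
  rw [log_eq_sum' hz.ne', Finset.mul_sum]
  refine Finset.sum_le_sum fun p hp => ?_
  have hpp := Nat.prime_of_mem_primeFactors hp
  have hpd := Nat.dvd_of_mem_primeFactors hp
  refine mul_le_mul_of_nonneg_right ?_ (log_prime_nonneg hpp)
  have hp2 : p ≠ 2 := by rintro rfl; exact hzodd hpd
  have hpx : ¬ p ∣ x := fun h => Nat.not_coprime_of_dvd_of_dvd hpp.one_lt hpd h hzx
  have hpy : ¬ p ∣ y := fun h => Nat.not_coprime_of_dvd_of_dvd hpp.one_lt hpd h hzy
  have h1 := val_bound (M := z.factorization p) (S := S) hx hy hxy hpp hp2 hpx hpy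
    (dvd_trans (Int.natCast_dvd_natCast.2 (Nat.ordProj_dvd z p)) hd) ((hRz p hp).trans hRS)
    hq hex hey
  have h2 : 2 ^ (140 * (x * y).primeFactors.card ^ 6) * S ^ (16 * (x * y).primeFactors.card ^ 4) ≤
      2 ^ (140 * w ^ 6) * S ^ (16 * w ^ 4) := by
    refine Nat.mul_le_mul (Nat.pow_le_pow_right (by norm_num) ?_) (Nat.pow_le_pow_right hS1 ?_)
    · exact Nat.mul_le_mul_left _ (Nat.pow_le_pow_left hw 6)
    · exact Nat.mul_le_mul_left _ (Nat.pow_le_pow_left hw 4)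
  exact_mod_cast h1.trans h2

end Pool.Agent.TH867.BK
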