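import Pool.Agent.TH907.Bak.Weak

/-! Explicit constants in the weak theorem on `p`-adic linear forms in logarithms (helper867,
after helper907). -/

set_option autoImplicit false

namespace Pool.Agent.TH867.BK

open Finset
open Pool.Agent.TH907.Bak

/-- The weak theorem for `n` numbers congruent to `1` modulo `p`, with given constants. -/
def WBe (n C κ : ℕ) : Prop :=
  ∀ (p : ℕ) [Fact p.Prime], p ≠ 2 → ∀ S : ℕ, 1 ≤ S →
    ∀ (α : Fin n → ℕ) (b : Fin n → ℤ) (M : ℕ) (u : Fin n → (ZMod (p ^ M))ˣ),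
      (∀ i, (u i : ZMod (p ^ M)) = α i) → (∀ i, 0 < α i) → (∀ i, α i ≡ 1 [MOD p]) →
      (∀ i, α i ≤ 2 ^ S) → (∀ i, |b i| ≤ 2 ^ S) → ∏ i, (α i : ℚ) ^ (b i) ≠ 1 →
      ∏ i, (u i) ^ (b i) = 1 → M ≤ C * S ^ κ

theorem WBe.mono {n C κ C' κ' : ℕ} (h : WBe n C κ) (hC : C ≤ C') (hκ : κ ≤ κ') :
    WBe n C' κ' := by
  intro p _ hp2 S hS α b M u h1 h2 h3 h4 h5 h6 h7
  refine (h p hp2 S hS α b M u h1 h2 h3 h4 h5 h6 h7).trans ?_
  exact Nat.mul_le_mul hC (Nat.pow_le_pow_right hS hκ)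

theorem wbe_zero : WBe 0 1 0 := by
  intro p _ _ S _ α b M u _ _ _ _ _ h _
  simp at h

theorem wbe_succ (k C₀ κ₀ s : ℕ) (hC₀ : WBe k C₀ κ₀)
    (hs : 8 * (k + 1) * (4 + (k + 1) * (2 + s + k * ((k + 1) ^ 2 + k + 5))) ≤ 2 ^ s) :
    WBe (k + 1) (C₀ * (2 + 2 * ell k 1 s) ^ κ₀ +
      (2 ^ eps k 0 s * 2 ^ (1 + (k + 1) + (k + 1) ^ 2 + 2 + 2 * (k + 1) ^ 3) + 2))
      (κ₀ + (1 + (k + 1) + (k + 1) ^ 2 + 2 + 2 * (k + 1) ^ 3)) := by
  classical
  set κ₁ := (1 + (k + 1) + (k + 1) ^ 2 + 2 + 2 * (k + 1) ^ 3) with hκ₁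
  set D := 2 + 2 * ell k 1 s with hD
  intro p hp hp2 S hS α b M u hu hα0 hα1 hα hb hne hrel
  -- choose `σ`
  obtain ⟨σ, hσ1, hσ2⟩ : ∃ σ, S ≤ 2 ^ σ ∧ 2 ^ σ ≤ 2 * S := by
    refine ⟨Nat.clog 2 S, Nat.le_pow_clog (by norm_num) _, ?_⟩
    rcases Nat.lt_or_ge 1 S with h1 | h1
    · have h2 := Nat.pow_pred_clog_lt_self (b := 2) (by norm_num) h1
      have h3 : 0 < Nat.clog 2 S := Nat.clog_pos (by norm_num) h1
      have h4 : 2 ^ Nat.clog 2 S = 2 * 2 ^ (Nat.clog 2 S).pred := by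
        rw [← pow_succ']
        exact congrArg (fun t => 2 ^ t) (Nat.succ_pred_eq_of_pos h3).symm
      omega
    · have : S = 1 := by omega
      subst this
      simp
  have hb0 : ∃ i, b i ≠ 0 := by
    by_contra hcon
    push Not at hcon
    apply hne
    apply Finset.prod_eq_one
    intro i _
    rw [hcon i, zpow_zero]
  have hαS : ∀ i, α i ≤ 2 ^ (2 ^ σ) := fun i =>
    (hα i).trans (Nat.pow_le_pow_right (by norm_num) hσ1)
  have hbS : ∀ i, |b i| ≤ 2 ^ (2 ^ σ) := fun i =>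
    (hb i).trans (pow_le_pow_right₀ (by norm_num) hσ1)
  have hSpow1 : S ^ κ₀ ≤ S ^ (κ₀ + κ₁) := Nat.pow_le_pow_right hS (by omega)
  have hSpow2 : S ^ κ₁ ≤ S ^ (κ₀ + κ₁) := Nat.pow_le_pow_right hS (by omega)
  have hSpow3 : S ≤ S ^ (κ₀ + κ₁) := by
    calc S = S ^ 1 := (pow_one S).symm
      _ ≤ _ := Nat.pow_le_pow_right hS (by rw [hκ₁]; omega)
  by_cases hinj : Function.Injective
      (fun l : Fin (k + 1) → Fin (2 ^ ell k σ s) => ∏ i, α i ^ (l i : ℕ))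
  · have h1 := inj_case (p := p) hp2 hs α b M u hu hα0 hα1 hαS hbS hb0 hrel hinj
    have h2 : 2 ^ eps k σ s ≤ 2 ^ eps k 0 s * 2 ^ κ₁ * S ^ κ₁ := by
      rw [eps_linear, pow_add, mul_assoc, ← mul_pow, mul_comm _ σ, pow_mul]
      exact Nat.mul_le_mul_left _ (Nat.pow_le_pow_left hσ2 _)
    calc M ≤ 2 ^ eps k σ s + 2 ^ σ := h1
      _ ≤ 2 ^ eps k 0 s * 2 ^ κ₁ * S ^ κ₁ + 2 * S := Nat.add_le_add h2 hσ2
      _ ≤ 2 ^ eps k 0 s * 2 ^ κ₁ * S ^ (κ₀ + κ₁) + 2 * S ^ (κ₀ + κ₁) :=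
          Nat.add_le_add (Nat.mul_le_mul_left _ hSpow2) (Nat.mul_le_mul_left _ hSpow3)
      _ = (2 ^ eps k 0 s * 2 ^ κ₁ + 2) * S ^ (κ₀ + κ₁) := by ring
      _ ≤ _ := Nat.mul_le_mul_right _ (by omega)
  · -- a second relation
    rw [Function.Injective] at hinj
    push Not at hinj
    obtain ⟨l, l', hll, hlne⟩ := hinj
    set c : Fin (k + 1) → ℤ := fun i => ((l i : ℕ) : ℤ) - ((l' i : ℕ) : ℤ) with hc
    obtain ⟨j, hj⟩ : ∃ j, c j ≠ 0 := by
      by_contra hcon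
      push Not at hcon
      apply hlne
      funext i
      have := hcon i
      rw [hc] at this
      simp only [sub_eq_zero] at this
      exact Fin.ext (by exact_mod_cast this)
    have hcb : ∀ i, |c i| ≤ 2 ^ ell k σ s := by
      intro i
      have h1 := (l i).2
      have h2 := (l' i).2
      have h3 : ((l i : ℕ) : ℤ) < 2 ^ ell k σ s := by exact_mod_cast h1
      have h4 : ((l' i : ℕ) : ℤ) < 2 ^ ell k σ s := by exact_mod_cast h2
      rw [hc, abs_le]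
      constructor
      · have : (0 : ℤ) ≤ ((l i : ℕ) : ℤ) := by positivity
        simp only
        linarith
      · have : (0 : ℤ) ≤ ((l' i : ℕ) : ℤ) := by positivity
        simp only
        linarith
    have hαq : ∀ i, (α i : ℚ) ≠ 0 := fun i => by exact_mod_cast (hα0 i).ne'
    -- rational relation
    have hψc : ∏ i, (α i : ℚ) ^ (c i) = 1 := by
      have h1 : ∀ i ∈ (univ : Finset (Fin (k + 1))), (α i : ℚ) ^ (c i)
          = (α i : ℚ) ^ (l i : ℕ) / (α i : ℚ) ^ (l' i : ℕ) := by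
        intro i _
        rw [hc]
        simp only
        rw [zpow_sub₀ (hαq i), zpow_natCast, zpow_natCast]
      rw [Finset.prod_congr rfl h1, Finset.prod_div_distrib]
      have h2 : (∏ i, (α i : ℚ) ^ (l i : ℕ)) = ∏ i, (α i : ℚ) ^ (l' i : ℕ) := by
        exact_mod_cast congrArg (Nat.cast (R := ℚ)) hll
      rw [h2]
      apply div_self
      exact Finset.prod_ne_zero_iff.2 fun i _ => pow_ne_zero _ (hαq i)
    have hφc : ∏ i, (u i) ^ (c i) = 1 := by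
      have h1 : ∀ i ∈ (univ : Finset (Fin (k + 1))), (u i) ^ (c i)
          = (u i) ^ (l i : ℕ) / (u i) ^ (l' i : ℕ) := by
        intro i _
        rw [hc]
        simp only
        rw [zpow_sub, zpow_natCast, zpow_natCast, div_eq_mul_inv]
      rw [Finset.prod_congr rfl h1, Finset.prod_div_distrib, div_eq_one]
      apply Units.ext
      rw [Units.coe_prod, Units.coe_prod]
      have h2 : (∏ i, (α i : ZMod (p ^ M)) ^ (l i : ℕ)) = ∏ i, (α i : ZMod (p ^ M)) ^ (l' i : ℕ) := by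
        exact_mod_cast congrArg (Nat.cast (R := ZMod (p ^ M))) hll
      calc ∏ i, (((u i) ^ (l i : ℕ) : (ZMod (p ^ M))ˣ) : ZMod (p ^ M))
          = ∏ i, (α i : ZMod (p ^ M)) ^ (l i : ℕ) := by
            apply Finset.prod_congr rfl
            intro i _
            rw [Units.val_pow_eq_pow_val, hu i]
        _ = ∏ i, (α i : ZMod (p ^ M)) ^ (l' i : ℕ) := h2
        _ = _ := by
            apply Finset.prod_congr rfl
            intro i _
            rw [Units.val_pow_eq_pow_val, hu i]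
    set S' := S + ell k σ s + 1 with hS'
    have hb'' : ∀ i : Fin k, |b (j.succAbove i) * c j - c (j.succAbove i) * b j| ≤ 2 ^ S' := by
      intro i
      calc |b (j.succAbove i) * c j - c (j.succAbove i) * b j|
          ≤ |b (j.succAbove i) * c j| + |c (j.succAbove i) * b j| := abs_sub _ _
        _ ≤ 2 ^ S * 2 ^ ell k σ s + 2 ^ ell k σ s * 2 ^ S := by
            rw [abs_mul, abs_mul]
            apply add_le_add
            · exact mul_le_mul (hb _) (hcb _) (abs_nonneg _) (by positivity)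
            · exact mul_le_mul (hcb _) (hb _) (abs_nonneg _) (by positivity)
        _ = 2 ^ S' := by rw [hS', pow_add, pow_add]; ring
    have happ := hC₀ p hp2 S' (by omega) (fun i => α (j.succAbove i))
      (fun i => b (j.succAbove i) * c j - c (j.succAbove i) * b j) M (fun i => u (j.succAbove i))
      (fun i => hu _) (fun i => hα0 _) (fun i => hα1 _)
      (fun i => (hα _).trans (Nat.pow_le_pow_right (by norm_num) (by omega))) hb''
      (by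
        rw [elim_prod (fun i => (α i : ℚ)) b c j]
        · rw [hψc, one_zpow, inv_one, mul_one]
          intro h
          apply hne
          have hpos : 0 < ∏ i, (α i : ℚ) ^ (b i) :=
            Finset.prod_pos fun i _ => zpow_pos (by exact_mod_cast hα0 i) _
          by_contra hne1
          exact hj ((zpow_eq_one_iff_right₀ hpos.le hne1).1 h)
        · have : b j * c j - c j * b j = 0 := by ring
          rw [this, zpow_zero]
        · intro i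
          rw [zpow_sub₀ (hαq i), zpow_mul, zpow_mul, div_eq_mul_inv])
      (by
        rw [elim_prod (fun i => u i) b c j]
        · rw [hφc, hrel, one_zpow, one_zpow, inv_one, mul_one]
        · have : b j * c j - c j * b j = 0 := by ring
          rw [this, zpow_zero]
        · intro i
          rw [zpow_sub, zpow_mul, zpow_mul])
    have hS'le : S' ≤ D * S := by
      have h1 := ell_le k σ s
      have h2 : 2 ^ σ * ell k 1 s ≤ 2 * S * ell k 1 s := Nat.mul_le_mul_right _ hσ2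
      rw [hS', hD]
      calc S + ell k σ s + 1 ≤ S + 2 * S * ell k 1 s + S := by omega
        _ = _ := by ring
    calc M ≤ C₀ * S' ^ κ₀ := happ
      _ ≤ C₀ * (D * S) ^ κ₀ := Nat.mul_le_mul_left _ (Nat.pow_le_pow_left hS'le _)
      _ = C₀ * D ^ κ₀ * S ^ κ₀ := by rw [mul_pow]; ring
      _ ≤ C₀ * D ^ κ₀ * S ^ (κ₀ + κ₁) := Nat.mul_le_mul_left _ hSpow1
      _ ≤ _ := Nat.mul_le_mul_right _ (by omega)


theorem num_s (k : ℕ) :
    8 * (k + 1) * (4 + (k + 1) * (2 + 15 * (k + 1) + k * ((k + 1) ^ 2 + k + 5))) ≤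
      2 ^ (15 * (k + 1)) := by
  obtain ⟨m, hm⟩ : ∃ m, m = k + 1 := ⟨_, rfl⟩
  have hm1 : 1 ≤ m := by omega
  have hkm : k ≤ m := by omega
  rw [← hm]
  have h1 : m ^ 5 ≤ 2 ^ (5 * m) := by
    rw [mul_comm, pow_mul]
    exact Nat.pow_le_pow_left Nat.lt_two_pow_self.le 5
  have h2 : 8 * m * (4 + m * (2 + 15 * m + k * (m ^ 2 + k + 5))) ≤ 256 * m ^ 5 := by
    have a1 : k * (m ^ 2 + k + 5) ≤ m * (m ^ 2 + m + 5) :=
      Nat.mul_le_mul hkm (by omega)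
    have e0 : 1 ≤ m ^ 3 := Nat.one_le_pow _ _ hm1
    have e1 : m ≤ m ^ 3 := Nat.le_self_pow (by norm_num) m
    have e2 : m ^ 2 ≤ m ^ 3 := Nat.pow_le_pow_right hm1 (by norm_num)
    have a2 : m * (m ^ 2 + m + 5) = m ^ 3 + m ^ 2 + 5 * m := by ring
    have a3 : 2 + 15 * m + k * (m ^ 2 + k + 5) ≤ 24 * m ^ 3 := by omega
    have a4 : 4 + m * (2 + 15 * m + k * (m ^ 2 + k + 5)) ≤ 28 * m ^ 4 := by
      have : m * (2 + 15 * m + k * (m ^ 2 + k + 5)) ≤ m * (24 * m ^ 3) :=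
        Nat.mul_le_mul_left _ a3
      have e4 : m * (24 * m ^ 3) = 24 * m ^ 4 := by ring
      have e5 : 1 ≤ m ^ 4 := Nat.one_le_pow _ _ hm1
      omega
    calc 8 * m * (4 + m * (2 + 15 * m + k * (m ^ 2 + k + 5))) ≤ 8 * m * (28 * m ^ 4) :=
          Nat.mul_le_mul_left _ a4
      _ = 224 * m ^ 5 := by ring
      _ ≤ 256 * m ^ 5 := Nat.mul_le_mul_right _ (by norm_num)
  calc 8 * m * (4 + m * (2 + 15 * m + k * (m ^ 2 + k + 5))) ≤ 256 * m ^ 5 := h2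
    _ ≤ 2 ^ 8 * 2 ^ (5 * m) := Nat.mul_le_mul (by norm_num) h1
    _ = 2 ^ (8 + 5 * m) := (pow_add _ _ _).symm
    _ ≤ 2 ^ (15 * m) := Nat.pow_le_pow_right (by norm_num) (by omega)

theorem ell_bd (k : ℕ) : 2 + 2 * ell k 1 (15 * (k + 1)) ≤ 50 * (k + 1) ^ 4 := by
  obtain ⟨m, hm⟩ : ∃ m, m = k + 1 := ⟨_, rfl⟩
  have hm1 : 1 ≤ m := by omega
  have hkm : k ≤ m := by omega
  simp only [ell, gro, gam]
  rw [← hm]
  have e0 : 1 ≤ m ^ 3 := Nat.one_le_pow _ _ hm1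
  have e1 : m ≤ m ^ 3 := Nat.le_self_pow (by norm_num) m
  have e2 : m ^ 2 ≤ m ^ 3 := Nat.pow_le_pow_right hm1 (by norm_num)
  have a1 : k * (m ^ 2 + 1 + k + 4) ≤ m * (m ^ 2 + 1 + m + 4) := Nat.mul_le_mul hkm (by omega)
  have a2 : m * (m ^ 2 + 1 + m + 4) = m ^ 3 + m ^ 2 + 5 * m := by ring
  have a3 : 1 + (1 + 15 * m) + k * (m ^ 2 + 1 + k + 4) ≤ 24 * m ^ 3 := by omega
  have a4 : m * (1 + (1 + 15 * m) + k * (m ^ 2 + 1 + k + 4)) ≤ m * (24 * m ^ 3) :=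
    Nat.mul_le_mul_left _ a3
  have e4 : m * (24 * m ^ 3) = 24 * m ^ 4 := by ring
  have e5 : 1 ≤ m ^ 4 := Nat.one_le_pow _ _ hm1
  omega

theorem eps_bd (k : ℕ) : eps k 0 (15 * (k + 1)) ≤ 125 * (k + 1) ^ 5 := by
  obtain ⟨m, hm⟩ : ∃ m, m = k + 1 := ⟨_, rfl⟩
  have hm1 : 1 ≤ m := by omega
  have hkm : k ≤ m := by omega
  simp only [eps, tau, ell, gro, gam]
  rw [← hm]
  have e0 : 1 ≤ m ^ 3 := Nat.one_le_pow _ _ hm1
  have e1 : m ≤ m ^ 3 := Nat.le_self_pow (by norm_num) m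
  have e2 : m ^ 2 ≤ m ^ 3 := Nat.pow_le_pow_right hm1 (by norm_num)
  have e3 : m ^ 3 ≤ m ^ 5 := Nat.pow_le_pow_right hm1 (by norm_num)
  have e4 : m ^ 4 ≤ m ^ 5 := Nat.pow_le_pow_right hm1 (by norm_num)
  have a1 : k * (m ^ 2 + 0 + k + 4) ≤ m * (m ^ 2 + 0 + m + 4) := Nat.mul_le_mul hkm (by omega)
  have a2 : m * (m ^ 2 + 0 + m + 4) = m ^ 3 + m ^ 2 + 4 * m := by ring
  obtain ⟨g, hg⟩ : ∃ g, g = 1 + (0 + 15 * m) + k * (m ^ 2 + 0 + k + 4) := ⟨_, rfl⟩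
  rw [← hg]
  have a3 : g ≤ 22 * m ^ 3 := by omega
  have a4 : m * g ≤ m * (22 * m ^ 3) := Nat.mul_le_mul_left _ a3
  have a5 : m ^ 2 * g ≤ m ^ 2 * (22 * m ^ 3) := Nat.mul_le_mul_left _ a3
  have b4 : m * (22 * m ^ 3) = 22 * m ^ 4 := by ring
  have b5 : m ^ 2 * (22 * m ^ 3) = 22 * m ^ 5 := by ring
  omega

theorem kap_bd (k : ℕ) : 1 + (k + 1) + (k + 1) ^ 2 + 2 + 2 * (k + 1) ^ 3 ≤ 7 * (k + 1) ^ 3 := by
  obtain ⟨m, hm⟩ : ∃ m, m = k + 1 := ⟨_, rfl⟩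
  have hm1 : 1 ≤ m := by omega
  rw [← hm]
  have e0 : 1 ≤ m ^ 3 := Nat.one_le_pow _ _ hm1
  have e1 : m ≤ m ^ 3 := Nat.le_self_pow (by norm_num) m
  have e2 : m ^ 2 ≤ m ^ 3 := Nat.pow_le_pow_right hm1 (by norm_num)
  omega

theorem kap_sum (k : ℕ) : 8 * k ^ 4 + (1 + (k + 1) + (k + 1) ^ 2 + 2 + 2 * (k + 1) ^ 3) ≤
    8 * (k + 1) ^ 4 := by
  have h1 := kap_bd k
  have h2 : k ^ 4 + (k + 1) ^ 3 ≤ (k + 1) ^ 4 := by
    have e1 : (k + 1) ^ 4 = (k + 1) ^ 3 * k + (k + 1) ^ 3 := by ring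
    have e2 : k ^ 4 = k ^ 3 * k := by ring
    have e3 : k ^ 3 ≤ (k + 1) ^ 3 := Nat.pow_le_pow_left (by omega) 3
    have e4 : k ^ 3 * k ≤ (k + 1) ^ 3 * k := Nat.mul_le_mul_right _ e3
    omega
  omega

theorem con_sum (k : ℕ) : 2 ^ (140 * k ^ 6) * (2 + 2 * ell k 1 (15 * (k + 1))) ^ (8 * k ^ 4) +
      (2 ^ eps k 0 (15 * (k + 1)) *
        2 ^ (1 + (k + 1) + (k + 1) ^ 2 + 2 + 2 * (k + 1) ^ 3) + 2) ≤ 2 ^ (140 * (k + 1) ^ 6) := by
  obtain ⟨m, hm⟩ : ∃ m, m = k + 1 := ⟨_, rfl⟩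
  have hm1 : 1 ≤ m := by omega
  have hkm : k ≤ m := by omega
  have h1 := ell_bd k
  have h2 := eps_bd k
  have h3 := kap_bd k
  rw [← hm] at h1 h2 h3 ⊢
  have h4 : (2 + 2 * ell k 1 (15 * m)) ^ (8 * k ^ 4) ≤ 2 ^ (80 * m ^ 5) := by
    have e1 : 2 + 2 * ell k 1 (15 * m) ≤ 2 ^ (6 + 4 * m) := by
      refine h1.trans ?_
      rw [pow_add, mul_comm 4 m, pow_mul]
      exact Nat.mul_le_mul (by norm_num) (Nat.pow_le_pow_left Nat.lt_two_pow_self.le 4)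
    calc (2 + 2 * ell k 1 (15 * m)) ^ (8 * k ^ 4) ≤ (2 ^ (6 + 4 * m)) ^ (8 * k ^ 4) :=
          Nat.pow_le_pow_left e1 _
      _ = 2 ^ ((6 + 4 * m) * (8 * k ^ 4)) := by rw [← pow_mul]
      _ ≤ 2 ^ (80 * m ^ 5) := by
          refine Nat.pow_le_pow_right (by norm_num) ?_
          have e2 : k ^ 4 ≤ m ^ 4 := Nat.pow_le_pow_left hkm 4
          calc (6 + 4 * m) * (8 * k ^ 4) ≤ (10 * m) * (8 * m ^ 4) :=
                Nat.mul_le_mul (by omega) (by omega)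
            _ = 80 * m ^ 5 := by ring
  have e3 : m ^ 3 ≤ m ^ 5 := Nat.pow_le_pow_right hm1 (by norm_num)
  have h5 : 2 ^ eps k 0 (15 * m) * 2 ^ (1 + m + m ^ 2 + 2 + 2 * m ^ 3) ≤ 2 ^ (132 * m ^ 5) := by
    rw [← pow_add]
    refine Nat.pow_le_pow_right (by norm_num) ?_
    omega
  have e5 : 1 ≤ m ^ 5 := Nat.one_le_pow _ _ hm1
  have h6 : 2 ^ (80 * m ^ 5) ≤ 2 ^ (132 * m ^ 5) :=
    Nat.pow_le_pow_right (by norm_num) (by omega)
  have h7 : 2 ≤ 2 ^ (132 * m ^ 5) := by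
    calc 2 = 2 ^ 1 := rfl
      _ ≤ 2 ^ (132 * m ^ 5) := Nat.pow_le_pow_right (by norm_num) (by omega)
  have h8 : 1 ≤ 2 ^ (140 * k ^ 6) := Nat.one_le_two_pow
  have h9 : k ^ 6 + m ^ 5 ≤ m ^ 6 := by
    have f1 : m ^ 6 = m ^ 5 * k + m ^ 5 := by rw [hm]; ring
    have f2 : k ^ 6 = k ^ 5 * k := by ring
    have f3 : k ^ 5 ≤ m ^ 5 := Nat.pow_le_pow_left hkm 5
    have f4 : k ^ 5 * k ≤ m ^ 5 * k := Nat.mul_le_mul_right _ f3
    omega
  calc 2 ^ (140 * k ^ 6) * (2 + 2 * ell k 1 (15 * m)) ^ (8 * k ^ 4) +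
      (2 ^ eps k 0 (15 * m) * 2 ^ (1 + m + m ^ 2 + 2 + 2 * m ^ 3) + 2) ≤
      2 ^ (140 * k ^ 6) * 2 ^ (132 * m ^ 5) + (2 ^ (132 * m ^ 5) + 2 ^ (132 * m ^ 5)) :=
        Nat.add_le_add (Nat.mul_le_mul_left _ (h4.trans h6)) (Nat.add_le_add h5 h7)
    _ ≤ 2 ^ (140 * k ^ 6) * 2 ^ (132 * m ^ 5) + 2 ^ (140 * k ^ 6) * 2 ^ (132 * m ^ 5) +
          2 ^ (140 * k ^ 6) * 2 ^ (132 * m ^ 5) + 2 ^ (140 * k ^ 6) * 2 ^ (132 * m ^ 5) := by
        have := Nat.mul_le_mul_right (2 ^ (132 * m ^ 5)) h8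
        rw [one_mul] at this
        omega
    _ = 2 ^ (140 * k ^ 6 + (132 * m ^ 5 + 2)) := by
        rw [pow_add 2 (140 * k ^ 6), pow_add]; ring
    _ ≤ 2 ^ (140 * m ^ 6) := Nat.pow_le_pow_right (by norm_num) (by omega)

/-- explicit constants -/
theorem wbe (n : ℕ) : WBe n (2 ^ (140 * n ^ 6)) (8 * n ^ 4) := by
  induction n with
  | zero => exact wbe_zero.mono (by simp) (by simp)
  | succ k ih => exact (wbe_succ k _ _ _ ih (num_s k)).mono (con_sum k) (kap_sum k)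

/-- The weak theorem on `p`-adic linear forms in logarithms with explicit constants. -/
theorem baker (n : ℕ) : ∀ (p : ℕ) [Fact p.Prime], p ≠ 2 → ∀ S : ℕ, p ≤ S →
    ∀ (α : Fin n → ℕ) (b : Fin n → ℤ) (M : ℕ) (u : Fin n → (ZMod (p ^ M))ˣ),
      (∀ i, (u i : ZMod (p ^ M)) = α i) → (∀ i, 0 < α i) →
      (∀ i, α i ≤ 2 ^ S) → (∀ i, |b i| ≤ 2 ^ S) → ∏ i, (α i : ℚ) ^ (b i) ≠ 1 →
      ∏ i, (u i) ^ (b i) = 1 → M ≤ 2 ^ (140 * n ^ 6) * S ^ (16 * n ^ 4) := by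
  have hC := wbe n
  intro p hp hp2 S hpS α b M u hu hα0 hα hb hne hrel
  rcases Nat.eq_zero_or_pos M with hM | hM
  · rw [hM]; exact Nat.zero_le _
  have hS1 : 1 ≤ S := hp.out.one_lt.le.trans hpS
  have hnd : ∀ i, ¬ p ∣ α i := by
    intro i hd
    have h1 : IsUnit ((α i : ℕ) : ZMod (p ^ M)) := by rw [← hu i]; exact (u i).isUnit
    rw [ZMod.isUnit_iff_coprime] at h1
    have h2 : p ∣ p ^ M := dvd_pow_self _ hM.ne'
    have h3 := Nat.dvd_gcd hd h2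
    rw [h1] at h3
    exact hp.out.one_lt.ne' (Nat.dvd_one.1 h3)
  have hSS : S ≤ S ^ 2 := by nlinarith
  have h := hC p hp2 (S ^ 2) (by nlinarith) (fun i => α i ^ (p - 1)) b M
    (fun i => u i ^ (p - 1))
    (fun i => by rw [Units.val_pow_eq_pow_val, hu i]; push_cast; rfl)
    (fun i => pow_pos (hα0 i) _)
    (fun i => by
      rw [← ZMod.natCast_eq_natCast_iff]
      push_cast
      apply ZMod.pow_card_sub_one_eq_one
      intro h0
      exact hnd i ((ZMod.natCast_eq_zero_iff _ _).1 h0))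
    (fun i => by
      calc α i ^ (p - 1) ≤ (2 ^ S) ^ (p - 1) := Nat.pow_le_pow_left (hα i) _
        _ ≤ (2 ^ S) ^ S := Nat.pow_le_pow_right (by positivity) (by omega)
        _ = 2 ^ (S ^ 2) := by rw [← pow_mul, sq])
    (fun i => (hb i).trans (pow_le_pow_right₀ (by norm_num) hSS))
    (by
      intro h1
      apply hne
      have h2 : (∏ i, (α i : ℚ) ^ (b i)) ^ (p - 1) = 1 := by
        rw [← h1, ← Finset.prod_pow]
        apply Finset.prod_congr rfl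
        intro i _
        push_cast
        rw [← zpow_natCast, ← zpow_natCast, ← zpow_mul, ← zpow_mul, mul_comm]
      have hpos : 0 < ∏ i, (α i : ℚ) ^ (b i) :=
        Finset.prod_pos fun i _ => zpow_pos (by exact_mod_cast hα0 i) _
      have hp1 : p - 1 ≠ 0 := by
        have := hp.out.two_le
        omega
      exact (pow_eq_one_iff_of_nonneg hpos.le hp1).1 h2)
    (by
      have h2 : (∏ i, (u i) ^ (b i)) ^ (p - 1) = 1 := by rw [hrel, one_pow]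
      rw [← h2, ← Finset.prod_pow]
      apply Finset.prod_congr rfl
      intro i _
      rw [← zpow_natCast, ← zpow_natCast, ← zpow_mul, ← zpow_mul, mul_comm])
  refine h.trans (le_of_eq ?_)
  rw [← pow_mul]
  congr 2
  ring

end Pool.Agent.TH867.BK
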